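import Pool.Agent.Y766.R10.Stm

/-!
# Project R10: the diagonal terms
-/

set_option autoImplicit false

namespace Pool.Agent.Y288.R10

open Finset MeasureTheory
open Pool.Agent.Y766.R10

/-- Selberg's sums -/
noncomputable def Lam (k : ℕ) (w : ℝ) : ℝ :=
  ∑ l ∈ k.divisors, (ArithmeticFunction.moebius l : ℝ) * max (w - Real.log l) 0

theorem Lam_continuous (k : ℕ) : Continuous (Lam k) := by
  unfold Lam
  fun_prop

theorem Lam_eq (k : ℕ) (w : ℝ) :
    ∑ l ∈ k.divisors.filter (fun l : ℕ => (l : ℝ) ≤ Real.exp w),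
      (ArithmeticFunction.moebius l : ℝ) * Real.log (Real.exp w / l) = Lam k w := by
  unfold Lam
  rw [Finset.sum_filter]
  refine Finset.sum_congr rfl fun l hl => ?_
  have hl0 : (0 : ℝ) < l := by
    have := Nat.pos_of_mem_divisors hl
    exact_mod_cast this
  have hlog : Real.log (Real.exp w / l) = w - Real.log l := by
    rw [Real.log_div (Real.exp_pos w).ne' hl0.ne', Real.log_exp]
  split_ifs with h
  · rw [hlog, max_eq_left]
    have := Real.log_le_log hl0 h
    rw [Real.log_exp] at this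
    linarith
  · rw [max_eq_right, mul_zero]
    push Not at h
    have := Real.log_le_log (Real.exp_pos w) h.le
    rw [Real.log_exp] at this
    linarith

/-- Cauchy-Schwarz -/
theorem cs {Y : ℝ} (hY : 0 < Y) {f : ℝ → ℝ} (hf : Continuous f) :
    (∫ w in (0 : ℝ)..Y, f w) ^ 2 ≤ Y * ∫ w in (0 : ℝ)..Y, f w ^ 2 := by
  set I := ∫ w in (0 : ℝ)..Y, f w with hI
  have h0 : 0 ≤ ∫ w in (0 : ℝ)..Y, (f w - I / Y) ^ 2 :=
    intervalIntegral.integral_nonneg hY.le fun w _ => sq_nonneg _
  have h1 : ∫ w in (0 : ℝ)..Y, (f w - I / Y) ^ 2 =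
      (∫ w in (0 : ℝ)..Y, f w ^ 2) - 2 * (I / Y) * I + (I / Y) ^ 2 * Y := by
    have e : ∀ w, (f w - I / Y) ^ 2 = f w ^ 2 - 2 * (I / Y) * f w + (I / Y) ^ 2 := fun w => by ring
    simp_rw [e]
    rw [intervalIntegral.integral_add, intervalIntegral.integral_sub,
      intervalIntegral.integral_const_mul, intervalIntegral.integral_const, smul_eq_mul,
      sub_zero, ← hI]
    · ring
    · exact (hf.pow 2).intervalIntegrable _ _
    · exact (continuous_const.mul hf).intervalIntegrable _ _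
    · exact ((hf.pow 2).sub (continuous_const.mul hf)).intervalIntegrable _ _
    · exact continuous_const.intervalIntegrable _ _
  rw [h1] at h0
  have h2 : 0 ≤ Y * ((∫ w in (0 : ℝ)..Y, f w ^ 2) - 2 * (I / Y) * I + (I / Y) ^ 2 * Y) :=
    mul_nonneg hY.le h0
  have h3 : Y * ((∫ w in (0 : ℝ)..Y, f w ^ 2) - 2 * (I / Y) * I + (I / Y) ^ 2 * Y) =
      Y * (∫ w in (0 : ℝ)..Y, f w ^ 2) - I ^ 2 := by
    field_simp
    ring
  linarith

/-- the second derivative of `(1 - w / Y) G((a - w) / L)` -/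
noncomputable def HH (G : ℝ → ℂ) (L Y a w : ℝ) : ℂ :=
  ((2 / (Y * L) : ℝ) : ℂ) * deriv G ((a - w) / L) +
    (((1 - w / Y) / L ^ 2 : ℝ) : ℂ) * deriv (deriv G) ((a - w) / L)

section

variable {B : ℝ} {G : ℝ → ℂ}

theorem contG (hG : WG B G) : Continuous G := hG.smooth.continuous

theorem smooth1 (hG : WG B G) : ContDiff ℝ ((⊤ : ℕ∞) : WithTop ℕ∞) (deriv G) := by
  have := (contDiff_infty_iff_deriv (f := G)).1 hG.smooth
  exact this.2

theorem smooth2 (hG : WG B G) : ContDiff ℝ ((⊤ : ℕ∞) : WithTop ℕ∞) (deriv (deriv G)) := by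
  have := (contDiff_infty_iff_deriv (f := deriv G)).1 (smooth1 hG)
  exact this.2

theorem diff0 (hG : WG B G) : Differentiable ℝ G :=
  hG.smooth.differentiable (by simp)

theorem diff1 (hG : WG B G) : Differentiable ℝ (deriv G) :=
  (smooth1 hG).differentiable (by simp)

theorem HH_continuous (hG : WG B G) (L Y a : ℝ) : Continuous (HH G L Y a) := by
  have h1 := (smooth1 hG).continuous
  have h2 := (smooth2 hG).continuous
  unfold HH
  refine Continuous.add ?_ ?_
  · exact continuous_const.mul (h1.comp (by fun_prop))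
  · refine Continuous.mul (by fun_prop) (h2.comp (by fun_prop))

theorem taylor (hG : WG B G) {L Y a u : ℝ} (hL : 0 < L) (hY : 0 < Y) (hu : 0 ≤ u) :
    ((max (1 - u / Y) 0 : ℝ) : ℂ) * G ((a - u) / L) =
      ((max (Y - u) 0 / Y : ℝ) : ℂ) * G ((a - Y) / L) +
      ∫ w in (0 : ℝ)..Y, ((max (w - u) 0 : ℝ) : ℂ) * HH G L Y a w := by
  rcases le_or_gt Y u with h | h
  · have e1 : max (1 - u / Y) 0 = 0 := by
      apply max_eq_right
      have : 1 ≤ u / Y := (one_le_div hY).2 h
      linarith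
    have e2 : max (Y - u) 0 = 0 := max_eq_right (by linarith)
    have e3 : ∫ w in (0 : ℝ)..Y, ((max (w - u) 0 : ℝ) : ℂ) * HH G L Y a w = ∫ w in (0 : ℝ)..Y, 0 := by
      refine intervalIntegral.integral_congr fun w hw => ?_
      rw [Set.uIcc_of_le hY.le] at hw
      have : max (w - u) 0 = 0 := max_eq_right (by linarith [hw.2])
      simp only [this]
      simp
    rw [e1, e2, e3]
    simp
  · have e1 : max (1 - u / Y) 0 = 1 - u / Y := by
      apply max_eq_left
      have : u / Y ≤ 1 := (div_le_one hY).2 h.le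
      linarith
    have e2 : max (Y - u) 0 = Y - u := max_eq_left (by linarith)
    have hHc := HH_continuous hG L Y a
    have hint : ∀ x y : ℝ, IntervalIntegrable
        (fun w : ℝ => ((max (w - u) 0 : ℝ) : ℂ) * HH G L Y a w) volume x y := fun x y =>
      (Continuous.mul (by fun_prop) hHc).intervalIntegrable _ _
    have e3 : ∫ w in (0 : ℝ)..Y, ((max (w - u) 0 : ℝ) : ℂ) * HH G L Y a w =
        ∫ w in u..Y, ((w - u : ℝ) : ℂ) * HH G L Y a w := by
      rw [← intervalIntegral.integral_add_adjacent_intervals (hint 0 u) (hint u Y)]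
      have e4 : ∫ w in (0 : ℝ)..u, ((max (w - u) 0 : ℝ) : ℂ) * HH G L Y a w =
          ∫ w in (0 : ℝ)..u, 0 := by
        refine intervalIntegral.integral_congr fun w hw => ?_
        rw [Set.uIcc_of_le hu] at hw
        have : max (w - u) 0 = 0 := max_eq_right (by linarith [hw.2])
        simp only [this]
        simp
      have e5 : ∫ w in u..Y, ((max (w - u) 0 : ℝ) : ℂ) * HH G L Y a w =
          ∫ w in u..Y, ((w - u : ℝ) : ℂ) * HH G L Y a w := by
        refine intervalIntegral.integral_congr fun w hw => ?_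
        rw [Set.uIcc_of_le h.le] at hw
        have : max (w - u) 0 = w - u := max_eq_left (by linarith [hw.1])
        simp only [this]
      rw [e4, e5]
      simp
    -- the primitive
    set Φ : ℝ → ℂ := fun w => ((w - u : ℝ) : ℂ) * (-(1 / (Y : ℂ)) * G ((a - w) / L) -
      ((1 - w / Y : ℝ) : ℂ) * (1 / (L : ℂ)) * deriv G ((a - w) / L)) -
      ((1 - w / Y : ℝ) : ℂ) * G ((a - w) / L) with hΦ
    have hd : ∀ w, HasDerivAt Φ (((w - u : ℝ) : ℂ) * HH G L Y a w) w := by
      intro w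
      have g0 : HasDerivAt (fun w : ℝ => (a - w) / L) (-(1 / L)) w := by
        exact (((hasDerivAt_id' w).const_sub a).div_const L).congr_deriv (by ring)
      have g1 : HasDerivAt (fun w : ℝ => G ((a - w) / L))
          ((-(1 / L) : ℝ) • deriv G ((a - w) / L)) w :=
        (diff0 hG _).hasDerivAt.scomp w g0
      have g2 : HasDerivAt (fun w : ℝ => deriv G ((a - w) / L))
          ((-(1 / L) : ℝ) • deriv (deriv G) ((a - w) / L)) w :=
        (diff1 hG _).hasDerivAt.scomp w g0
      have g3 : HasDerivAt (fun w : ℝ => ((w - u : ℝ) : ℂ)) 1 w := by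
        exact (((hasDerivAt_id' w).sub_const u).ofReal_comp).congr_deriv (by simp)
      have g4 : HasDerivAt (fun w : ℝ => ((1 - w / Y : ℝ) : ℂ)) (-(1 / (Y : ℂ))) w := by
        exact ((((hasDerivAt_id' w).div_const Y).const_sub 1).ofReal_comp).congr_deriv (by
          push_cast; ring)
      have g5 := (g3.mul ((g1.const_mul (-(1 / (Y : ℂ)))).sub
        ((g4.mul_const (1 / (L : ℂ))).mul g2))).sub (g4.mul g1)
      refine g5.congr_deriv ?_
      have hLc : (L : ℂ) ≠ 0 := by exact_mod_cast hL.ne'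
      have hYc : (Y : ℂ) ≠ 0 := by exact_mod_cast hY.ne'
      unfold HH
      simp only [Pi.sub_apply, Pi.mul_apply, Complex.real_smul]
      push_cast
      field_simp
      ring
    have hftc := intervalIntegral.integral_eq_sub_of_hasDerivAt (f := Φ)
      (f' := fun w => ((w - u : ℝ) : ℂ) * HH G L Y a w) (a := u) (b := Y)
      (fun w _ => hd w) ((Continuous.mul (by fun_prop) hHc).intervalIntegrable _ _)
    rw [e1, e2, e3, hftc, hΦ]
    have hYc : (Y : ℂ) ≠ 0 := by exact_mod_cast hY.ne'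
    simp only
    rw [div_self hY.ne', sub_self, sub_self]
    push_cast
    field_simp
    ring

theorem HH_bound (hG : WG B G) {L Y a w : ℝ} (hY : 0 < Y) (hYL : Y ≤ L) (hw0 : 0 ≤ w)
    (hw : w ≤ Y) : ‖HH G L Y a w‖ ≤ 3 * B / Y ^ 2 := by
  have hL : 0 < L := lt_of_lt_of_le hY hYL
  have hB : 0 ≤ B := (norm_nonneg _).trans (hG.b0 0)
  unfold HH
  refine (norm_add_le _ _).trans ?_
  rw [norm_mul, norm_mul, Complex.norm_real, Complex.norm_real, Real.norm_eq_abs,
    Real.norm_eq_abs]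
  have h1 : |2 / (Y * L)| ≤ 2 / Y ^ 2 := by
    rw [abs_of_pos (by positivity), sq]
    exact div_le_div_of_nonneg_left (by norm_num) (by positivity)
      (mul_le_mul_of_nonneg_left hYL hY.le)
  have h2 : |(1 - w / Y) / L ^ 2| ≤ 1 / Y ^ 2 := by
    have h3 : 0 ≤ w / Y := by positivity
    have h4 : w / Y ≤ 1 := (div_le_one hY).2 hw
    rw [abs_of_nonneg (div_nonneg (by linarith) (by positivity))]
    refine div_le_div₀ (by norm_num) (by linarith) (by positivity) ?_
    exact pow_le_pow_left₀ hY.le hYL 2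
  have h3 := hG.b1 ((a - w) / L)
  have h4 := hG.b2 ((a - w) / L)
  calc |2 / (Y * L)| * ‖deriv G ((a - w) / L)‖ + |(1 - w / Y) / L ^ 2| *
        ‖deriv (deriv G) ((a - w) / L)‖ ≤ 2 / Y ^ 2 * B + 1 / Y ^ 2 * B :=
        add_le_add (mul_le_mul h1 h3 (norm_nonneg _) (by positivity))
          (mul_le_mul h2 h4 (norm_nonneg _) (by positivity))
    _ = 3 * B / Y ^ 2 := by ring

/-- the inner sum -/
theorem inner_eq (hG : WG B G) {κ q : ℝ} (hκ : 0 < κ) (hq : 0 < q) (hκq : 1 ≤ κ * Real.log q)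
    (k : ℕ) :
    ∑ l ∈ k.divisors, (mw q κ l : ℂ) * G ((Real.log k - Real.log l) / Real.log q) =
      ((Lam k (κ * Real.log q) / (κ * Real.log q) : ℝ) : ℂ) *
        G ((Real.log k - κ * Real.log q) / Real.log q) +
      ∫ w in (0 : ℝ)..(κ * Real.log q), ((Lam k w : ℝ) : ℂ) *
        HH G (Real.log q) (κ * Real.log q) (Real.log k) w := by
  set L := Real.log q with hL
  set Y := κ * L with hY
  have hYpos : 0 < Y := by linarith
  have hLpos : 0 < L := by
    by_contra h
    push Not at h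
    have : κ * L ≤ 0 := mul_nonpos_of_nonneg_of_nonpos hκ.le h
    linarith
  have hqκ : q ^ κ = Real.exp Y := by
    rw [Real.rpow_def_of_pos hq, hY, mul_comm]
  have h1 : ∀ l ∈ k.divisors, (mw q κ l : ℂ) * G ((Real.log k - Real.log l) / L) =
      ((ArithmeticFunction.moebius l : ℝ) : ℂ) *
        (((max (1 - Real.log l / Y) 0 : ℝ) : ℂ) * G ((Real.log k - Real.log l) / L)) := by
    intro l hl
    have hl0 : (0 : ℝ) < l := by
      have := Nat.pos_of_mem_divisors hl
      exact_mod_cast this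
    have e : mw q κ l = (ArithmeticFunction.moebius l : ℝ) * max (1 - Real.log l / Y) 0 := by
      unfold mw
      rw [hqκ]
      split_ifs with h
      · have h2 := Real.log_le_log hl0 h
        rw [Real.log_exp] at h2
        rw [max_eq_left]
        have h3 : Real.log l / Y ≤ 1 := (div_le_one hYpos).2 h2
        linarith
      · push Not at h
        have h2 := Real.log_le_log (Real.exp_pos Y) h.le
        rw [Real.log_exp] at h2
        rw [max_eq_right, mul_zero]
        have h3 : 1 ≤ Real.log l / Y := (one_le_div hYpos).2 h2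
        linarith
    rw [e]
    push_cast
    ring
  rw [Finset.sum_congr rfl h1]
  have h2 : ∀ l ∈ k.divisors, ((ArithmeticFunction.moebius l : ℝ) : ℂ) *
        (((max (1 - Real.log l / Y) 0 : ℝ) : ℂ) * G ((Real.log k - Real.log l) / L)) =
      (((ArithmeticFunction.moebius l : ℝ) * max (Y - Real.log l) 0 / Y : ℝ) : ℂ) *
        G ((Real.log k - Y) / L) +
      ∫ w in (0 : ℝ)..Y, (((ArithmeticFunction.moebius l : ℝ) * max (w - Real.log l) 0 : ℝ) : ℂ) *
        HH G L Y (Real.log k) w := by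
    intro l hl
    have hl0 : (1 : ℝ) ≤ l := by
      have := Nat.pos_of_mem_divisors hl
      exact_mod_cast this
    rw [taylor hG hLpos hYpos (Real.log_nonneg hl0) (a := Real.log k), mul_add,
      ← intervalIntegral.integral_const_mul]
    congr 1
    · push_cast
      ring
    · refine intervalIntegral.integral_congr fun w _ => ?_
      push_cast
      ring
  rw [Finset.sum_congr rfl h2, Finset.sum_add_distrib, ← Finset.sum_mul,
    ← intervalIntegral.integral_finsetSum]
  · congr 1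
    · congr 1
      rw [← Complex.ofReal_sum]
      congr 1
      unfold Lam
      rw [Finset.sum_div]
    · refine intervalIntegral.integral_congr fun w _ => ?_
      rw [← Finset.sum_mul, ← Complex.ofReal_sum]
      rfl
  · intro l _
    exact (Continuous.mul (by fun_prop) (HH_continuous hG L Y _)).intervalIntegrable _ _

/-- the bound of the inner sum -/
theorem inner_bound (hG : WG B G) {κ q : ℝ} (hκ : 0 < κ) (hκ1 : κ ≤ 1) (hq : 0 < q)
    (hκq : 1 ≤ κ * Real.log q) (k : ℕ) :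
    ‖∑ l ∈ k.divisors, (mw q κ l : ℂ) * G ((Real.log k - Real.log l) / Real.log q)‖ ^ 2 ≤
      2 * B ^ 2 / (κ * Real.log q) ^ 2 * Lam k (κ * Real.log q) ^ 2 +
      18 * B ^ 2 / (κ * Real.log q) ^ 3 *
        ∫ w in (0 : ℝ)..(κ * Real.log q), Lam k w ^ 2 := by
  rw [inner_eq hG hκ hq hκq]
  set L := Real.log q with hL
  set Y := κ * L with hY
  have hYpos : 0 < Y := by linarith
  have hLpos : 0 < L := by
    by_contra h
    push Not at h
    have : κ * L ≤ 0 := mul_nonpos_of_nonneg_of_nonpos hκ.le h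
    linarith
  have hYL : Y ≤ L := by
    rw [hY]
    nlinarith
  have hB : 0 ≤ B := (norm_nonneg _).trans (hG.b0 0)
  have hLc := Lam_continuous k
  have h1 : ‖((Lam k Y / Y : ℝ) : ℂ) * G ((Real.log k - Y) / L)‖ ≤ |Lam k Y| / Y * B := by
    rw [norm_mul, Complex.norm_real, Real.norm_eq_abs, abs_div, abs_of_pos hYpos]
    exact mul_le_mul_of_nonneg_left (hG.b0 _) (by positivity)
  have h2 : ‖∫ w in (0 : ℝ)..Y, ((Lam k w : ℝ) : ℂ) * HH G L Y (Real.log k) w‖ ≤
      3 * B / Y ^ 2 * ∫ w in (0 : ℝ)..Y, |Lam k w| := by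
    rw [← intervalIntegral.integral_const_mul]
    refine (intervalIntegral.norm_integral_le_integral_norm hYpos.le).trans ?_
    refine intervalIntegral.integral_mono_on hYpos.le ?_ ?_ fun w hw => ?_
    · exact (Continuous.norm (Continuous.mul (Complex.continuous_ofReal.comp hLc)
        (HH_continuous hG L Y _))).intervalIntegrable _ _
    · exact (continuous_const.mul hLc.abs).intervalIntegrable _ _
    · rw [norm_mul, Complex.norm_real, Real.norm_eq_abs, mul_comm]
      exact mul_le_mul_of_nonneg_right (HH_bound hG hYpos hYL hw.1 hw.2) (abs_nonneg _)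
  set J := ∫ w in (0 : ℝ)..Y, |Lam k w| with hJ
  have h3 : J ^ 2 ≤ Y * ∫ w in (0 : ℝ)..Y, Lam k w ^ 2 := by
    have := cs hYpos hLc.abs
    simpa only [sq_abs] using this
  have hJ0 : 0 ≤ J := intervalIntegral.integral_nonneg hYpos.le fun w _ => abs_nonneg _
  have h4 : ‖((Lam k Y / Y : ℝ) : ℂ) * G ((Real.log k - Y) / L) +
      ∫ w in (0 : ℝ)..Y, ((Lam k w : ℝ) : ℂ) * HH G L Y (Real.log k) w‖ ≤
      |Lam k Y| / Y * B + 3 * B / Y ^ 2 * J := (norm_add_le _ _).trans (add_le_add h1 h2)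
  have h5 : (|Lam k Y| / Y * B + 3 * B / Y ^ 2 * J) ^ 2 ≤
      2 * (|Lam k Y| / Y * B) ^ 2 + 2 * (3 * B / Y ^ 2 * J) ^ 2 := by
    nlinarith [sq_nonneg (|Lam k Y| / Y * B - 3 * B / Y ^ 2 * J)]
  refine (pow_le_pow_left₀ (norm_nonneg _) h4 2).trans (h5.trans ?_)
  have e1 : 2 * (|Lam k Y| / Y * B) ^ 2 = 2 * B ^ 2 / Y ^ 2 * Lam k Y ^ 2 := by
    rw [mul_pow, div_pow, sq_abs]; ring
  have e2 : 2 * (3 * B / Y ^ 2 * J) ^ 2 = 18 * B ^ 2 / Y ^ 4 * J ^ 2 := by
    rw [mul_pow, div_pow]; ring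
  rw [e1, e2]
  refine add_le_add le_rfl ?_
  calc 18 * B ^ 2 / Y ^ 4 * J ^ 2 ≤ 18 * B ^ 2 / Y ^ 4 * (Y * ∫ w in (0 : ℝ)..Y, Lam k w ^ 2) :=
        mul_le_mul_of_nonneg_left h3 (by positivity)
    _ = 18 * B ^ 2 / Y ^ 3 * ∫ w in (0 : ℝ)..Y, Lam k w ^ 2 := by
        field_simp

end

/-- the diagonal terms -/
theorem diag (h : S_SEL) : S_DIAG := by
  obtain ⟨C, hC, hsel⟩ := h
  refine ⟨160 * C, by positivity, fun κ hκ hκ1 B G hG q hq hκq K hK => ?_⟩
  set L := Real.log q with hL
  set Y := κ * L with hY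
  have hYpos : 0 < Y := by linarith
  have hLpos : 0 < L := by
    by_contra h
    push Not at h
    have : κ * L ≤ 0 := mul_nonpos_of_nonneg_of_nonpos hκ.le h
    linarith
  have hYL : Y ≤ L := by
    rw [hY]
    nlinarith
  have hL1 : 1 ≤ L := by linarith
  have hB : 0 ≤ B := (norm_nonneg _).trans (hG.b0 0)
  set K' := max K ⌈Real.exp Y⌉₊ with hK'
  have hKK' : K ≤ K' := le_max_left _ _
  have hK'1 : Real.exp Y ≤ K' := by
    have h1 := Nat.le_ceil (Real.exp Y)
    have h2 : ((⌈Real.exp Y⌉₊ : ℕ) : ℝ) ≤ (K' : ℝ) := by exact_mod_cast le_max_right _ _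
    linarith
  have hK'pos : (0 : ℝ) < K' := lt_of_lt_of_le (Real.exp_pos Y) hK'1
  have hlogK' : Real.log K' ≤ 2 * L + 1 := by
    rw [Real.log_le_iff_le_exp hK'pos]
    have h1 : (K' : ℝ) = max (K : ℝ) (⌈Real.exp Y⌉₊ : ℝ) := by
      rw [hK']; push_cast; rfl
    rw [h1]
    refine max_le ?_ ?_
    · refine hK.trans ?_
      have h2 : q ^ 2 = Real.exp (2 * L) := by
        rw [two_mul, Real.exp_add, hL, Real.exp_log hq]; ring
      rw [h2]
      exact Real.exp_le_exp.2 (by linarith)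
    · have h2 : ((⌈Real.exp Y⌉₊ : ℕ) : ℝ) < Real.exp Y + 1 := Nat.ceil_lt_add_one (Real.exp_pos Y).le
      have h3 : Real.exp Y ≤ Real.exp (2 * L) := Real.exp_le_exp.2 (by linarith)
      have h4 : Real.exp (2 * L + 1) = Real.exp (2 * L) * Real.exp 1 := Real.exp_add _ _
      have h5 : 2 ≤ Real.exp 1 := by
        have := Real.add_one_le_exp (1 : ℝ)
        linarith
      have h6 : 1 ≤ Real.exp (2 * L) := Real.one_le_exp (by linarith)
      rw [h4]
      nlinarith
  set X := C * (1 + Y) * (1 + Real.log K') with hX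
  have hlogK0 : 0 ≤ Real.log K' := by
    apply Real.log_nonneg
    exact le_trans (Real.one_le_exp hYpos.le) hK'1
  have hXbound : X ≤ 8 * C * Y * L := by
    have h1 : 1 + Y ≤ 2 * Y := by linarith
    have h2 : 1 + Real.log K' ≤ 4 * L := by linarith
    calc X ≤ C * (2 * Y) * (4 * L) := by
          rw [hX]
          exact mul_le_mul (mul_le_mul_of_nonneg_left h1 hC.le) h2 (by linarith) (by positivity)
      _ = 8 * C * Y * L := by ring
  have hLamX : ∀ w ∈ Set.Icc 0 Y, ∑ k ∈ Icc 1 K, Lam k w ^ 2 / k ≤ X := by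
    intro w hw
    have h1 := hsel (Real.exp w) (Real.one_le_exp hw.1) K'
      (le_trans (Real.exp_le_exp.2 hw.2) hK'1)
    rw [Real.log_exp] at h1
    have h2 : ∑ k ∈ Icc 1 K, Lam k w ^ 2 / k ≤ ∑ k ∈ Icc 1 K', Lam k w ^ 2 / k := by
      refine Finset.sum_le_sum_of_subset_of_nonneg ?_ fun _ _ _ => by positivity
      exact Finset.Icc_subset_Icc le_rfl hKK'
    have h3 : ∑ k ∈ Icc 1 K', Lam k w ^ 2 / k = ∑ k ∈ Icc 1 K',
        (∑ l ∈ k.divisors.filter (fun l : ℕ => (l : ℝ) ≤ Real.exp w),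
          (ArithmeticFunction.moebius l : ℝ) * Real.log (Real.exp w / l)) ^ 2 / k := by
      refine Finset.sum_congr rfl fun k _ => ?_
      rw [Lam_eq]
    rw [h3] at h2
    refine h2.trans (h1.trans ?_)
    rw [hX]
    refine mul_le_mul_of_nonneg_right ?_ (by linarith)
    exact mul_le_mul_of_nonneg_left (by linarith [hw.2]) hC.le
  have hint : ∑ k ∈ Icc 1 K, (∫ w in (0 : ℝ)..Y, Lam k w ^ 2) / k ≤ X * Y := by
    have e1 : ∀ k ∈ Icc 1 K, (∫ w in (0 : ℝ)..Y, Lam k w ^ 2) / k =
        ∫ w in (0 : ℝ)..Y, Lam k w ^ 2 / k := by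
      intro k _
      rw [intervalIntegral.integral_div]
    rw [Finset.sum_congr rfl e1, ← intervalIntegral.integral_finsetSum]
    · have e2 : X * Y = ∫ _ in (0 : ℝ)..Y, X := by
        rw [intervalIntegral.integral_const, smul_eq_mul, sub_zero, mul_comm]
      rw [e2]
      refine intervalIntegral.integral_mono_on hYpos.le ?_ ?_ fun w hw => hLamX w hw
      · exact (continuous_finsetSum _ fun k _ =>
          ((Lam_continuous k).pow 2).div_const _).intervalIntegrable _ _
      · exact continuous_const.intervalIntegrable _ _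
    · intro k _
      exact (((Lam_continuous k).pow 2).div_const _).intervalIntegrable _ _
  have hmain : ∑ k ∈ Icc 1 K, ‖∑ l ∈ k.divisors, (mw q κ l : ℂ) *
      G ((Real.log k - Real.log l) / L)‖ ^ 2 / k ≤
      2 * B ^ 2 / Y ^ 2 * (∑ k ∈ Icc 1 K, Lam k Y ^ 2 / k) +
      18 * B ^ 2 / Y ^ 3 * ∑ k ∈ Icc 1 K, (∫ w in (0 : ℝ)..Y, Lam k w ^ 2) / k := by
    rw [Finset.mul_sum, Finset.mul_sum, ← Finset.sum_add_distrib]
    refine Finset.sum_le_sum fun k _ => ?_
    rw [← mul_div_assoc, ← mul_div_assoc, ← add_div]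
    exact div_le_div_of_nonneg_right (inner_bound hG hκ hκ1 hq hκq k) (Nat.cast_nonneg k)
  refine hmain.trans ?_
  have h1 := hLamX Y ⟨hYpos.le, le_rfl⟩
  calc 2 * B ^ 2 / Y ^ 2 * (∑ k ∈ Icc 1 K, Lam k Y ^ 2 / k) +
      18 * B ^ 2 / Y ^ 3 * ∑ k ∈ Icc 1 K, (∫ w in (0 : ℝ)..Y, Lam k w ^ 2) / k
      ≤ 2 * B ^ 2 / Y ^ 2 * X + 18 * B ^ 2 / Y ^ 3 * (X * Y) :=
        add_le_add (mul_le_mul_of_nonneg_left h1 (by positivity))
          (mul_le_mul_of_nonneg_left hint (by positivity))
    _ = 20 * B ^ 2 / Y ^ 2 * X := by field_simp; ring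
    _ ≤ 20 * B ^ 2 / Y ^ 2 * (8 * C * Y * L) :=
        mul_le_mul_of_nonneg_left hXbound (by positivity)
    _ = 160 * C * B ^ 2 / κ := by
        rw [hY]
        field_simp
        ring

end Pool.Agent.Y288.R10
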